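import Pool.Agent.Helper17.SA.St2

/-!
# Project SA, module CM: certificates for m = 5, 6, 9, 10, 12
-/

set_option autoImplicit false

open scoped Pointwise

namespace Pool.Agent.Helper78.SA

open Equiv Pool.Agent.Helper17.SA

/-- fast version of `Nat.size` -/
def sz (n : ℕ) : ℕ := if n = 0 then 0 else Nat.log2 n + 1

lemma sz_eq (n : ℕ) : Nat.size n = sz n := by
  unfold sz
  split_ifs with h
  · rw [h, Nat.size_zero]
  · have key : ∀ k, Nat.size n ≤ k ↔ Nat.log2 n + 1 ≤ k := by
      intro k
      rw [Nat.size_le, ← Nat.log2_lt h]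
      rfl
    exact le_antisymm ((key _).2 le_rfl) ((key _).1 le_rfl)

/-- fast version of `dd` -/
def ddf (i j : ℕ) : ℕ := sz (i ^^^ j)

lemma ddf_eq (i j : ℕ) : dd i j = ddf i j := sz_eq _

/-- fast version of `okk` -/
def okf (x : List ℕ) (L : List ℕ) (v : ℕ) : Bool :=
  let t := L.length
  (List.range t).all fun s =>
    let w := L.getD (t - 1 - s) 0
    (ddf w v == ddf s t) && (ddf (x.getD w 0) (x.getD v 0) == ddf (x.getD s 0) (x.getD t 0))

/-- fast version of `rig` -/
def rigf (m : ℕ) (x : List ℕ) : ℕ → List ℕ → Bool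
  | 0, L => L == (List.range m).reverse
  | f + 1, L => (List.range m).all fun v => !(okf x L v) || rigf m x f (v :: L)

/-- fast version of `key` -/
def keyf (m : ℕ) (x : List ℕ) : ℕ :=
  ((List.range m).map fun i => ((List.range m).map fun j =>
    1000 ^ (5 * ddf i j + ddf (x.getD i 0) (x.getD j 0))).sum).sum

lemma okf_eq (x L : List ℕ) (v : ℕ) : okk x L v = okf x L v := by
  unfold okk okf
  simp only [ddf_eq]

lemma rigf_eq (m : ℕ) (x : List ℕ) : ∀ (f : ℕ) (L : List ℕ), rig m x f L = rigf m x f L := by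
  intro f
  induction f with
  | zero => intro L; rfl
  | succ f ih =>
    intro L
    simp only [rig, rigf, okf_eq, ih]

lemma keyf_eq (m : ℕ) (x : List ℕ) : key m x = keyf m x := by
  unfold key keyf
  simp only [ddf_eq]

lemma mkperm (m : ℕ) (L : List ℕ) (hlen : L.length = m) (hnd : L.Nodup) (hlt : ∀ a ∈ L, a < m) :
    ∃ x : Perm (Fin m), lst m x = L := by
  subst hlen
  have hb : Function.Injective
      (fun i : Fin L.length => (⟨L[i], hlt _ (List.getElem_mem _)⟩ : Fin L.length)) := by
    intro i j hij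
    have h1 : L[i] = L[j] := by
      have := congrArg Fin.val hij
      exact this
    exact (List.nodup_iff_injective_get.1 hnd) h1
  refine ⟨Equiv.ofBijective _ ((Finite.injective_iff_bijective).1 hb), ?_⟩
  unfold lst
  apply List.ext_getElem
  · simp
  · intro i h1 h2
    simp

/-- the test for one list -/
def tst (m : ℕ) (L : List ℕ) : Bool :=
  (L.length == m) && decide L.Nodup && (L.all fun a => decide (a < m)) && rigf m L m []

lemma gen (cer : StCER) (hrig : StRIG) (hkey : StKEY) (m : ℕ) (D : List (List ℕ))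
    (h1 : (D.all fun L => tst m L) = true) (h2 : (D.map (keyf m)).Nodup) :
    D.length * (Nat.card (Q0 m)) ^ 2 + bad (Q0 m) ≤ m.factorial := by
  have h3 : ∀ L ∈ D, L.length = m ∧ L.Nodup ∧ (∀ a ∈ L, a < m) ∧ rigf m L m [] = true := by
    intro L hL
    have h4 := (List.all_eq_true.1 h1) L hL
    unfold tst at h4
    simp only [Bool.and_eq_true, beq_iff_eq, decide_eq_true_eq, List.all_eq_true] at h4
    obtain ⟨⟨⟨h5, h6⟩, h7⟩, h8⟩ := h4
    exact ⟨h5, h6, h7, h8⟩
  have hex : ∀ i : Fin D.length, ∃ x : Perm (Fin m), lst m x = D[i] := by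
    intro i
    obtain ⟨h5, h6, h7, -⟩ := h3 D[i] (List.getElem_mem _)
    exact mkperm m _ h5 h6 h7
  choose x hx using hex
  have h := cer (Perm (Fin m)) (Q0 m) D.length x (by
    intro i
    apply hrig m (x i)
    rw [hx, rigf_eq]
    exact (h3 D[i] (List.getElem_mem _)).2.2.2) (by
    intro i j hij a ha b hb heq
    apply hij
    have h5 := hkey m (x i) a b ha hb
    rw [heq, hx, hx, keyf_eq, keyf_eq] at h5
    have h6 := List.nodup_iff_injective_get.1 h2
    have h7 : (⟨j, by simp⟩ : Fin (D.map (keyf m)).length) = ⟨i, by simp⟩ := by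
      apply h6
      simpa using h5
    have h8 : (j : ℕ) = (i : ℕ) := by
      have h9 := congrArg Fin.val h7
      simpa using h9
    exact (Fin.ext h8).symm)
  rwa [Nat.card_perm, Nat.card_fin] at h

set_option maxRecDepth 100000

lemma c5 : (dat5.all fun L => tst 5 L) = true := by decide +kernel
lemma c6 : (dat6.all fun L => tst 6 L) = true := by decide +kernel
lemma c9 : (dat9.all fun L => tst 9 L) = true := by decide +kernel
lemma c10 : (dat10.all fun L => tst 10 L) = true := by decide +kernel
lemma c12 : (dat12.all fun L => tst 12 L) = true := by decide +kernel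

lemma k5 : (dat5.map (keyf 5)).Nodup := by decide +kernel
lemma k6 : (dat6.map (keyf 6)).Nodup := by decide +kernel
lemma k9 : (dat9.map (keyf 9)).Nodup := by decide +kernel
lemma k10 : (dat10.map (keyf 10)).Nodup := by decide +kernel
lemma k12 : (dat12.map (keyf 12)).Nodup := by decide +kernel

theorem pCM : StCER → StRIG → StKEY → StCM := by
  intro cer hrig hkey m hm
  rcases hm with rfl | rfl | rfl | rfl | rfl
  · exact gen cer hrig hkey 5 dat5 c5 k5
  · exact gen cer hrig hkey 6 dat6 c6 k6
  · exact gen cer hrig hkey 9 dat9 c9 k9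
  · exact gen cer hrig hkey 10 dat10 c10 k10
  · exact gen cer hrig hkey 12 dat12 c12 k12

end Pool.Agent.Helper78.SA
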