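import Pool.Agent.Helper78.SA.M_CM

/-!
# Project SA, module E8: degree 8
-/

set_option autoImplicit false

open scoped Pointwise

namespace Pool.Agent.Helper78.SA

open Equiv Pool.Agent.Helper17.SA

/-- if the intersection of all Sylow subgroups is trivial and `StarAt` holds, then the square of the
order of a Sylow subgroup plus the number of bad elements is at most the order of the group -/
lemma e8_star (cer : StCER) (G : Type) [Group G] [Finite G] (q : ℕ) [Fact q.Prime] (P : Sylow q G)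
    (hstar : StarAt G q) (hcore : ∀ y ∈ ⨅ R : Sylow q G, (R : Subgroup G), y = 1) :
    (Nat.card (P : Subgroup G)) ^ 2 + bad (P : Subgroup G) ≤ Nat.card G := by
  obtain ⟨P', Q', hPQ⟩ := hstar
  obtain ⟨a, ha⟩ := MulAction.exists_smul_eq G P P'
  obtain ⟨b, hb⟩ := MulAction.exists_smul_eq G P Q'
  have hnb : ¬ Bad (P : Subgroup G) (b⁻¹ * a) := by
    rintro ⟨y, hy, hy1, hy2⟩
    apply hy1
    have h1 : a * y * a⁻¹ ∈ (P' : Subgroup G) := by
      rw [← ha, Sylow.coe_subgroup_smul, Subgroup.mem_pointwise_smul_iff_inv_smul_mem]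
      simpa [MulAut.smul_def, mul_assoc] using hy
    have h2 : a * y * a⁻¹ ∈ (Q' : Subgroup G) := by
      rw [← hb, Sylow.coe_subgroup_smul, Subgroup.mem_pointwise_smul_iff_inv_smul_mem]
      have h3 : (MulAut.conj b)⁻¹ • (a * y * a⁻¹) = b⁻¹ * a * y * (b⁻¹ * a)⁻¹ := by
        rw [← map_inv, MulAut.smul_def, MulAut.conj_apply]
        group
      rw [h3]
      exact hy2
    have h3 := hcore _ (hPQ ⟨h1, h2⟩)
    have h4 : y = a⁻¹ * (a * y * a⁻¹) * a := by group
    rw [h4, h3]
    group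
  have h := cer G (P : Subgroup G) 1 (fun _ => b⁻¹ * a) (fun _ => hnb) (fun i j hij =>
    absurd (Subsingleton.elim i j) hij)
  rwa [one_mul] at h

lemma e8_val : padicValNat 2 40320 = 7 := by
  have : (40320 : ℕ) = 2 ^ 7 * 315 := by norm_num
  rw [this, padicValNat.mul (by norm_num) (by norm_num), padicValNat.prime_pow,
    padicValNat.eq_zero_of_not_dvd (by norm_num)]

lemma e8_val2 : padicValNat 2 20160 = 6 := by
  have : (20160 : ℕ) = 2 ^ 6 * 315 := by norm_num
  rw [this, padicValNat.mul (by norm_num) (by norm_num), padicValNat.prime_pow,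
    padicValNat.eq_zero_of_not_dvd (by norm_num)]

lemma e8_cardS : Nat.card (Perm (Fin 8)) = 40320 := by
  rw [Nat.card_perm, Nat.card_fin]
  rfl

lemma e8_cardA : Nat.card (alternatingGroup (Fin 8)) = 20160 := by
  have h := nat_card_alternatingGroup (α := Fin 8)
  rw [Nat.card_fin] at h
  rw [h]
  rfl

lemma e8_swap : (swap (0 : Fin 8) 1) ∈ Q0 8 := by
  show ∀ i j : Fin 8, dd (swap (0 : Fin 8) 1 i) (swap (0 : Fin 8) 1 j) = dd i j
  simp only [ddf_eq]
  decide +kernel

/-- the elements `y` of the alternating group with `x y x⁻¹` in the tree group -/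
def BB (x : Perm (Fin 8)) : Subgroup (alternatingGroup (Fin 8)) :=
  (Q0 8).comap ((MulAut.conj x).toMonoidHom.comp (alternatingGroup (Fin 8)).subtype)

lemma mem_BB (x : Perm (Fin 8)) (y : alternatingGroup (Fin 8)) :
    y ∈ BB x ↔ x * (y : Perm (Fin 8)) * x⁻¹ ∈ Q0 8 := Iff.rfl

lemma card_BB_one (h : Nat.card (Q0 8) = 128) : Nat.card (BB 1) = 64 := by
  let f : Q0 8 →* ℤˣ := Perm.sign.comp (Q0 8).subtype
  have h1 : Function.Surjective f := by
    intro u
    rcases Int.units_eq_one_or u with rfl | rfl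
    · exact ⟨1, map_one f⟩
    · refine ⟨⟨swap 0 1, e8_swap⟩, ?_⟩
      show Perm.sign (swap (0 : Fin 8) 1) = -1
      exact Perm.sign_swap (by decide)
  have h2 : f.ker.index = 2 := by
    rw [Subgroup.index_ker, MonoidHom.range_eq_top.2 h1, Subgroup.card_top,
      Nat.card_eq_fintype_card]
    rfl
  have h3 := Subgroup.card_mul_index f.ker
  rw [h2, h] at h3
  have h4 : Nat.card (BB 1) = Nat.card f.ker := by
    apply Nat.card_congr
    refine ⟨fun y => ⟨⟨(y.1 : Perm (Fin 8)), ?_⟩, ?_⟩, fun z => ⟨⟨(z.1 : Perm (Fin 8)), ?_⟩, ?_⟩,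
      ?_, ?_⟩
    · have := (mem_BB 1 y.1).1 y.2
      simpa using this
    · show Perm.sign (y.1 : Perm (Fin 8)) = 1
      exact Perm.mem_alternatingGroup.1 y.1.2
    · rw [Perm.mem_alternatingGroup]
      exact z.2
    · rw [mem_BB]
      simpa using z.1.2
    · intro y
      rfl
    · intro z
      rfl
  omega

lemma card_BB (h : Nat.card (Q0 8) = 128) (x : Perm (Fin 8)) : Nat.card (BB x) = 64 := by
  rw [← card_BB_one h]
  apply Nat.card_congr
  refine ⟨fun y => ⟨⟨x * (y.1 : Perm (Fin 8)) * x⁻¹, ?_⟩, ?_⟩,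
    fun y => ⟨⟨x⁻¹ * (y.1 : Perm (Fin 8)) * x, ?_⟩, ?_⟩, ?_, ?_⟩
  · have h1 := Perm.mem_alternatingGroup.1 y.1.2
    rw [Perm.mem_alternatingGroup, map_mul, map_mul, h1, mul_one, map_inv, mul_inv_cancel]
  · rw [mem_BB]
    have := (mem_BB x y.1).1 y.2
    simpa using this
  · have h1 := Perm.mem_alternatingGroup.1 y.1.2
    rw [Perm.mem_alternatingGroup, map_mul, map_mul, h1, mul_one, map_inv, inv_mul_cancel]
  · rw [mem_BB]
    have h1 := (mem_BB 1 y.1).1 y.2
    have h2 : x * (x⁻¹ * (y.1 : Perm (Fin 8)) * x) * x⁻¹ = 1 * (y.1 : Perm (Fin 8)) * 1⁻¹ := by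
      group
    show x * (x⁻¹ * (y.1 : Perm (Fin 8)) * x) * x⁻¹ ∈ Q0 8
    rw [h2]
    exact h1
  · intro y
    apply Subtype.ext
    apply Subtype.ext
    show x⁻¹ * (x * (y.1 : Perm (Fin 8)) * x⁻¹) * x = _
    group
  · intro y
    apply Subtype.ext
    apply Subtype.ext
    show x * (x⁻¹ * (y.1 : Perm (Fin 8)) * x) * x⁻¹ = _
    group

theorem pE8 : StSYL → StCER → StO8 → StE8 := by
  intro syl cer o8
  have : Fact (Nat.Prime 2) := ⟨Nat.prime_two⟩
  obtain ⟨x, z, hxz⟩ := o8
  have hf8 : padicValNat 2 (Nat.factorial 8) = 7 := e8_val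
  constructor
  · intro P hstar
    obtain ⟨h1, h2, -⟩ := syl 8 P
    rw [hf8] at h1 h2
    have hfac : (Nat.card (Perm (Fin 8))).factorization 2 = 7 := by
      rw [e8_cardS, Nat.factorization_def _ Nat.prime_two, e8_val]
    let S0 : Sylow 2 (Perm (Fin 8)) := Sylow.ofCard (Q0 8) (by rw [h2, hfac])
    have hS0 : (S0 : Subgroup (Perm (Fin 8))) = Q0 8 := rfl
    have hcore : ∀ y ∈ ⨅ R : Sylow 2 (Perm (Fin 8)), (R : Subgroup (Perm (Fin 8))), y = 1 := by
      intro y hy
      rw [Subgroup.mem_iInf] at hy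
      have hconj : ∀ g : Perm (Fin 8), g * y * g⁻¹ ∈ Q0 8 := by
        intro g
        have h3 := hy (g⁻¹ • S0)
        rw [Sylow.coe_subgroup_smul, Subgroup.mem_pointwise_smul_iff_inv_smul_mem, hS0] at h3
        simpa [MulAut.smul_def] using h3
      have h4 := hconj 1
      rw [one_mul, inv_one, mul_one] at h4
      exact hxz y h4 (hconj x) (hconj z)
    have h3 := e8_star cer (Perm (Fin 8)) 2 P hstar hcore
    rw [h1, e8_cardS] at h3
    omega
  · intro P hstar
    have P0 : Sylow 2 (Perm (Fin 8)) := default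
    obtain ⟨-, h2, -⟩ := syl 8 P0
    rw [hf8] at h2
    have h2' : Nat.card (Q0 8) = 128 := by rw [h2]; norm_num
    have hfac : (Nat.card (alternatingGroup (Fin 8))).factorization 2 = 6 := by
      rw [e8_cardA, Nat.factorization_def _ Nat.prime_two, e8_val2]
    have hcore : ∀ y ∈ ⨅ R : Sylow 2 (alternatingGroup (Fin 8)),
        (R : Subgroup (alternatingGroup (Fin 8))), y = 1 := by
      intro y hy
      rw [Subgroup.mem_iInf] at hy
      have hconj : ∀ g : Perm (Fin 8), g * (y : Perm (Fin 8)) * g⁻¹ ∈ Q0 8 := by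
        intro g
        have h3 := hy (Sylow.ofCard (BB g) (by rw [card_BB h2' g, hfac]; norm_num))
        exact (mem_BB g y).1 h3
      have h4 := hconj 1
      rw [one_mul, inv_one, mul_one] at h4
      exact Subtype.ext (hxz y h4 (hconj x) (hconj z))
    have h3 := e8_star cer (alternatingGroup (Fin 8)) 2 P hstar hcore
    rw [Sylow.card_eq_multiplicity, hfac, e8_cardA] at h3
    omega

end Pool.Agent.Helper78.SA
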