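import Pool.Agent.Helper17.SA.St2

/-!
# Project SA, module SML: small groups
-/

set_option autoImplicit false

open scoped Pointwise

namespace Pool.Agent.Helper78.SA

open Equiv Pool.Agent.Helper17.SA

section

variable {G : Type} [Group G] [Finite G] {q : ℕ} [Fact q.Prime]

lemma sml_memO (P : Sylow q G) (y : G) :
    y ∈ ⨅ R : Sylow q G, (R : Subgroup G) ↔ ∀ g : G, g * y * g⁻¹ ∈ (P : Subgroup G) := by
  rw [Subgroup.mem_iInf]
  constructor
  · intro h g
    have h1 := h (g⁻¹ • P)
    rw [Sylow.coe_subgroup_smul, Subgroup.mem_pointwise_smul_iff_inv_smul_mem] at h1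
    simpa [MulAut.smul_def] using h1
  · intro h R
    obtain ⟨g, rfl⟩ := MulAction.exists_smul_eq G P R
    rw [Sylow.coe_subgroup_smul, Subgroup.mem_pointwise_smul_iff_inv_smul_mem]
    have h1 := h g⁻¹
    rw [← map_inv, MulAut.smul_def, MulAut.conj_apply]
    exact h1

lemma sml_conjO (P : Sylow q G) (y h : G) (hy : y ∈ ⨅ R : Sylow q G, (R : Subgroup G)) :
    h * y * h⁻¹ ∈ ⨅ R : Sylow q G, (R : Subgroup G) := by
  rw [sml_memO P] at hy ⊢
  intro g
  have h1 := hy (g * h)
  have h2 : g * h * y * (g * h)⁻¹ = g * (h * y * h⁻¹) * g⁻¹ := by group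
  rwa [h2] at h1

lemma sml_conjO' (P : Sylow q G) (y h : G)
    (hy : h * y * h⁻¹ ∈ ⨅ R : Sylow q G, (R : Subgroup G)) :
    y ∈ ⨅ R : Sylow q G, (R : Subgroup G) := by
  have h1 := sml_conjO P _ h⁻¹ hy
  have h2 : h⁻¹ * (h * y * h⁻¹) * h⁻¹⁻¹ = y := by group
  rwa [h2] at h1

/-- `x` is good for the Sylow subgroup `P` -/
def gd (P : Sylow q G) (x : G) : Prop :=
  ∀ y ∈ (P : Subgroup G), x * y * x⁻¹ ∈ (P : Subgroup G) →
    y ∈ ⨅ R : Sylow q G, (R : Subgroup G)

lemma gd_eq (P : Sylow q G) (x : G) (h : gd P x) :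
    (P : Subgroup G) ⊓ MulAut.conj x⁻¹ • (P : Subgroup G) =
      ⨅ Q : Sylow q G, (Q : Subgroup G) := by
  ext y
  rw [Subgroup.mem_inf, Subgroup.mem_pointwise_smul_iff_inv_smul_mem]
  have h1 : (MulAut.conj x⁻¹)⁻¹ • y = x * y * x⁻¹ := by
    rw [← map_inv, MulAut.smul_def, MulAut.conj_apply, inv_inv]
  rw [h1]
  constructor
  · rintro ⟨h2, h3⟩
    exact h y h2 h3
  · intro h2
    rw [sml_memO P] at h2
    refine ⟨?_, h2 x⟩
    have h3 := h2 1
    simpa using h3

lemma sml_claim (P : Sylow q G) (hst : StarAt G q) :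
    (∀ x, gd P x) ∨ q * Nat.card (P : Subgroup G) ≤ Nat.card {x // gd P x} := by
  classical
  set O : Subgroup G := ⨅ R : Sylow q G, (R : Subgroup G) with hO
  have hOP : O ≤ (P : Subgroup G) := iInf_le _ P
  by_cases hPO : (P : Subgroup G) ≤ O
  · left
    intro x y hy _
    exact hPO hy
  · right
    obtain ⟨P', Q', hPQ⟩ := hst
    obtain ⟨a, ha⟩ := MulAction.exists_smul_eq G P P'
    obtain ⟨b, hb⟩ := MulAction.exists_smul_eq G P Q'
    have hx0 : gd P (b⁻¹ * a) := by
      intro y hy hy2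
      have h1 : a * y * a⁻¹ ∈ (P' : Subgroup G) := by
        rw [← ha, Sylow.coe_subgroup_smul, Subgroup.mem_pointwise_smul_iff_inv_smul_mem]
        simpa [MulAut.smul_def, mul_assoc] using hy
      have h2 : a * y * a⁻¹ ∈ (Q' : Subgroup G) := by
        rw [← hb, Sylow.coe_subgroup_smul, Subgroup.mem_pointwise_smul_iff_inv_smul_mem]
        have h3 : (MulAut.conj b)⁻¹ • (a * y * a⁻¹) = b⁻¹ * a * y * (b⁻¹ * a)⁻¹ := by
          rw [← map_inv, MulAut.smul_def, MulAut.conj_apply]
          group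
        rw [h3]
        exact hy2
      exact sml_conjO' P y a (hPQ ⟨h1, h2⟩)
    set x0 := b⁻¹ * a with hx0d
    have hgood : ∀ u v : (P : Subgroup G), gd P ((u : G) * x0 * v) := by
      intro u v y hy hy2
      apply sml_conjO' P y v
      apply hx0
      · exact Subgroup.mul_mem _ (Subgroup.mul_mem _ v.2 hy) (Subgroup.inv_mem _ v.2)
      · have h3 : x0 * ((v : G) * y * (v : G)⁻¹) * x0⁻¹ =
            (u : G)⁻¹ * ((u : G) * x0 * v * y * ((u : G) * x0 * v)⁻¹) * u := by group
        rw [h3]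
        exact Subgroup.mul_mem _ (Subgroup.mul_mem _ (Subgroup.inv_mem _ u.2) hy2) u.2
    let f : Prod (P : Subgroup G) (P : Subgroup G) → {x // gd P x} := fun w =>
      ⟨(w.1 : G) * x0 * w.2, hgood w.1 w.2⟩
    have hfib : ∀ g : {x // gd P x}, Nat.card {w // f w = g} ≤ Nat.card O := by
      intro g
      rcases isEmpty_or_nonempty {w // f w = g} with he | ⟨⟨w0, hw0⟩⟩
      · rw [Nat.card_of_isEmpty]; exact Nat.zero_le _
      · have hkey : ∀ w : {w // f w = g},
            ((w.1.2 : G) * (w0.2 : G)⁻¹) ∈ O := by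
          rintro ⟨w, hw⟩
          have h1 : (w.1 : G) * x0 * w.2 = (w0.1 : G) * x0 * w0.2 := by
            have := hw.trans hw0.symm
            exact congrArg Subtype.val this
          apply hx0
          · exact Subgroup.mul_mem _ w.2.2 (Subgroup.inv_mem _ w0.2.2)
          · have h2 : x0 * ((w.2 : G) * (w0.2 : G)⁻¹) * x0⁻¹ = (w.1 : G)⁻¹ * w0.1 := by
              calc x0 * ((w.2 : G) * (w0.2 : G)⁻¹) * x0⁻¹
                  = (w.1 : G)⁻¹ * ((w.1 : G) * x0 * w.2) * (w0.2 : G)⁻¹ * x0⁻¹ := by group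
                _ = (w.1 : G)⁻¹ * ((w0.1 : G) * x0 * w0.2) * (w0.2 : G)⁻¹ * x0⁻¹ := by rw [h1]
                _ = (w.1 : G)⁻¹ * w0.1 := by group
            rw [h2]
            exact Subgroup.mul_mem _ (Subgroup.inv_mem _ w.1.2) w0.1.2
        apply Nat.card_le_card_of_injective
          (fun w : {w // f w = g} => (⟨(w.1.2 : G) * (w0.2 : G)⁻¹, hkey w⟩ : O))
        rintro ⟨w, hw⟩ ⟨w', hw'⟩ h
        have h1 : (w.2 : G) * (w0.2 : G)⁻¹ = (w'.2 : G) * (w0.2 : G)⁻¹ := congrArg Subtype.val h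
        have h2 : (w.2 : G) = w'.2 := mul_right_cancel h1
        have h3 : (w.1 : G) * x0 * w.2 = (w'.1 : G) * x0 * w'.2 :=
          congrArg Subtype.val (hw.trans hw'.symm)
        rw [h2] at h3
        have h4 : (w.1 : G) = w'.1 := mul_right_cancel (mul_right_cancel h3)
        apply Subtype.ext
        exact Prod.ext (Subtype.ext h4) (Subtype.ext h2)
    have hcount : Nat.card (P : Subgroup G) * Nat.card (P : Subgroup G) ≤
        Nat.card {x // gd P x} * Nat.card O := by
      have : Fintype {x // gd P x} := Fintype.ofFinite _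
      rw [← Nat.card_prod, ← Nat.card_congr (Equiv.sigmaFiberEquiv f), Nat.card_sigma,
        Nat.card_eq_fintype_card (α := {x // gd P x})]
      calc ∑ g, Nat.card {w // f w = g} ≤ ∑ _g : {x // gd P x}, Nat.card O :=
            Finset.sum_le_sum fun g _ => hfib g
        _ = Fintype.card {x // gd P x} * Nat.card O := by
            rw [Finset.sum_const, Finset.card_univ, smul_eq_mul]
    -- the orders
    obtain ⟨s, hs⟩ := (IsPGroup.iff_card).1 P.2
    have hdvd : Nat.card O ∣ Nat.card (P : Subgroup G) := Subgroup.card_dvd_of_le hOP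
    rw [hs] at hdvd
    obtain ⟨t, ht, hOt⟩ := (Nat.dvd_prime_pow (Fact.out : q.Prime)).1 hdvd
    have hlt : t < s := by
      rcases lt_or_eq_of_le ht with h | h
      · exact h
      · exfalso
        apply hPO
        have h1 : O = (P : Subgroup G) := by
          apply Subgroup.eq_of_le_of_card_ge hOP
          rw [hs, hOt, h]
        rw [h1]
    have hq0 : 0 < q := (Fact.out : q.Prime).pos
    have h5 : q * Nat.card O ≤ Nat.card (P : Subgroup G) := by
      rw [hOt, hs, ← pow_succ']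
      exact Nat.pow_le_pow_right hq0 hlt
    have hO0 : 0 < Nat.card O := by rw [hOt]; positivity
    have h6 : (q * Nat.card (P : Subgroup G)) * Nat.card O ≤ Nat.card {x // gd P x} * Nat.card O := by
      calc (q * Nat.card (P : Subgroup G)) * Nat.card O
          = Nat.card (P : Subgroup G) * (q * Nat.card O) := by ring
        _ ≤ Nat.card (P : Subgroup G) * Nat.card (P : Subgroup G) := Nat.mul_le_mul_left _ h5
        _ ≤ _ := hcount
    exact Nat.le_of_mul_le_mul_right h6 hO0

lemma sml_bnd (P : Sylow q G) (hst : StarAt G q) (k : ℕ) (hk : q ^ k ∣ Nat.card G) :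
    Nat.card {x // ¬ gd P x} = 0 ∨ Nat.card {x // ¬ gd P x} + q * q ^ k ≤ Nat.card G := by
  classical
  have hsum : Nat.card {x // gd P x} + Nat.card {x // ¬ gd P x} = Nat.card G := by
    rw [← Nat.card_sum, Nat.card_congr (Equiv.sumCompl (fun x => gd P x))]
  have hcard : q ^ k ≤ Nat.card (P : Subgroup G) := by
    have h1 : (Nat.card G) ≠ 0 := Nat.card_pos.ne'
    rw [Sylow.card_eq_multiplicity]
    exact Nat.pow_le_pow_right (Fact.out : q.Prime).pos
      ((Nat.Prime.pow_dvd_iff_le_factorization (Fact.out : q.Prime) h1).1 hk)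
  rcases sml_claim P hst with h | h
  · left
    have : IsEmpty {x // ¬ gd P x} := ⟨fun x => x.2 (h x.1)⟩
    exact Nat.card_of_isEmpty
  · right
    have h2 : q * q ^ k ≤ q * Nat.card (P : Subgroup G) := Nat.mul_le_mul_left _ hcard
    omega

lemma sml_triv (P : Sylow q G) (hq : ¬ q ∣ Nat.card G) (x : G) : gd P x := by
  intro y hy _
  have h1 : Nat.card (P : Subgroup G) = 1 := by
    rw [Sylow.card_eq_multiplicity, Nat.factorization_eq_zero_of_not_dvd hq, pow_zero]
  have h2 : (P : Subgroup G) = ⊥ := Subgroup.card_eq_one.1 h1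
  rw [h2, Subgroup.mem_bot] at hy
  rw [hy]
  exact Subgroup.one_mem _

end

theorem pSML : StSML := by
  classical
  intro G _ _ hG ι _ p hp hinj hstar P
  have hfact : ∀ i, Fact (p i).Prime := fun i => ⟨hp i⟩
  -- the bad elements for the prime `q`
  let B : ℕ → ℕ := fun q => Nat.card {x : G // ∃ i, p i = q ∧ ¬ @gd G _ (p i) (P i) x}
  have hB : ∀ q k, q.Prime → q ^ k ∣ Nat.card G → B q = 0 ∨ B q + q * q ^ k ≤ Nat.card G := by
    intro q k hq hk
    by_cases hex : ∃ i, p i = q
    · obtain ⟨i, rfl⟩ := hex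
      have h1 : B (p i) = Nat.card {x : G // ¬ @gd G _ (p i) (P i) x} := by
        apply Nat.card_congr
        apply Equiv.subtypeEquivRight
        intro x
        constructor
        · rintro ⟨j, hj, hx⟩
          have := hinj hj
          subst this
          exact hx
        · intro hx
          exact ⟨i, rfl, hx⟩
      rw [h1]
      exact sml_bnd (P i) (hstar i) k hk
    · left
      have : IsEmpty {x : G // ∃ i, p i = q ∧ ¬ @gd G _ (p i) (P i) x} :=
        ⟨fun x => by
          obtain ⟨i, hi, -⟩ := x.2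
          exact hex ⟨i, hi⟩⟩
      exact Nat.card_of_isEmpty
  suffices h : ∃ x : G, ∀ i, @gd G _ (p i) (P i) x by
    obtain ⟨x, hx⟩ := h
    exact ⟨x, fun i => gd_eq (P i) x (hx i)⟩
  by_contra hno
  push Not at hno
  have h24 : Nat.card G ∣ 24 := by
    rcases hG with h | h | h | h | h | h <;> rw [h] <;> norm_num
  have hcov : ∀ x : G, (∃ i, p i = 2 ∧ ¬ @gd G _ (p i) (P i) x) ∨
      (∃ i, p i = 3 ∧ ¬ @gd G _ (p i) (P i) x) := by
    intro x
    obtain ⟨i, hi⟩ := hno x
    have hd : p i ∣ Nat.card G := by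
      by_contra hnd
      exact hi (sml_triv (P i) hnd x)
    have h1 : p i ∣ 2 ^ 3 * 3 := dvd_trans hd h24
    rcases (hp i).dvd_mul.1 h1 with h2 | h2
    · left
      exact ⟨i, (Nat.prime_dvd_prime_iff_eq (hp i) Nat.prime_two).1 ((hp i).dvd_of_dvd_pow h2), hi⟩
    · right
      exact ⟨i, (Nat.prime_dvd_prime_iff_eq (hp i) Nat.prime_three).1 h2, hi⟩
  have hle : Nat.card G ≤ B 2 + B 3 := by
    have : Fintype G := Fintype.ofFinite _
    have h1 : B 2 = (Finset.univ.filter fun x : G => ∃ i, p i = 2 ∧ ¬ @gd G _ (p i) (P i) x).card := by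
      show Nat.card _ = _
      rw [Nat.card_eq_fintype_card, Fintype.card_subtype]
    have h2 : B 3 = (Finset.univ.filter fun x : G => ∃ i, p i = 3 ∧ ¬ @gd G _ (p i) (P i) x).card := by
      show Nat.card _ = _
      rw [Nat.card_eq_fintype_card, Fintype.card_subtype]
    rw [h1, h2, Nat.card_eq_fintype_card, ← Finset.card_univ]
    refine le_trans (Finset.card_le_card ?_) (Finset.card_union_le _ _)
    intro x _
    rw [Finset.mem_union, Finset.mem_filter, Finset.mem_filter]
    rcases hcov x with h | h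
    · exact Or.inl ⟨Finset.mem_univ _, h⟩
    · exact Or.inr ⟨Finset.mem_univ _, h⟩
  have hb : ∀ k2 k3, 2 ^ k2 ∣ Nat.card G → 3 ^ k3 ∣ Nat.card G →
      (B 2 = 0 ∨ B 2 + 2 * 2 ^ k2 ≤ Nat.card G) ∧ (B 3 = 0 ∨ B 3 + 3 * 3 ^ k3 ≤ Nat.card G) :=
    fun k2 k3 h2 h3 => ⟨hB 2 k2 Nat.prime_two h2, hB 3 k3 Nat.prime_three h3⟩
  rcases hG with h | h | h | h | h | h <;> rw [h] at hb hle
  · have := hb 0 0 (by norm_num) (by norm_num); omega
  · have := hb 1 0 (by norm_num) (by norm_num); omega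
  · have := hb 0 1 (by norm_num) (by norm_num); omega
  · have := hb 1 1 (by norm_num) (by norm_num); omega
  · have := hb 2 1 (by norm_num) (by norm_num); omega
  · have := hb 3 1 (by norm_num) (by norm_num); omega

end Pool.Agent.Helper78.SA
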