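import Pool.Agent.Helper17.SA.St3

set_option autoImplicit false

open Equiv Pool.Agent.Helper17.SA

namespace Pool.Agent.Helper78.SA

theorem two_card_alt (m : ℕ) (hm : 2 ≤ m) :
    2 * Nat.card (alternatingGroup (Fin m)) = m.factorial := by
  haveI : Nontrivial (Fin m) := Fin.nontrivial_iff_two_le.2 hm
  have h := two_mul_card_alternatingGroup (α := Fin m)
  rw [Nat.card_eq_fintype_card, h, Fintype.card_perm, Fintype.card_fin]

theorem card_shift (m : ℕ) (H : Subgroup (Perm (Fin m))) (c : alternatingGroup (Fin m)) :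
    Nat.card {n : alternatingGroup (Fin m) // Bad H ((c * n : alternatingGroup (Fin m)) :
      Perm (Fin m))} =
    Nat.card {x : Perm (Fin m) // x ∈ alternatingGroup (Fin m) ∧ Bad H x} := by
  refine Nat.card_congr
    { toFun := fun n => ⟨((c * n.1 : alternatingGroup (Fin m)) : Perm (Fin m)),
        (c * n.1).2, n.2⟩
      invFun := fun x => ⟨c⁻¹ * ⟨x.1, x.2.1⟩, by
        have : c * (c⁻¹ * (⟨x.1, x.2.1⟩ : alternatingGroup (Fin m))) = ⟨x.1, x.2.1⟩ := by
          group
        rw [this]
        exact x.2.2⟩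
      left_inv := ?_
      right_inv := ?_ }
  · intro n
    apply Subtype.ext
    show c⁻¹ * (⟨((c * n.1 : alternatingGroup (Fin m)) : Perm (Fin m)), _⟩ :
      alternatingGroup (Fin m)) = n.1
    have : (⟨((c * n.1 : alternatingGroup (Fin m)) : Perm (Fin m)), (c * n.1).2⟩ :
      alternatingGroup (Fin m)) = c * n.1 := Subtype.ext rfl
    rw [this]
    group
  · intro x
    apply Subtype.ext
    show ((c * (c⁻¹ * (⟨x.1, x.2.1⟩ : alternatingGroup (Fin m))) : alternatingGroup (Fin m)) :
      Perm (Fin m)) = x.1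
    have : c * (c⁻¹ * (⟨x.1, x.2.1⟩ : alternatingGroup (Fin m))) = ⟨x.1, x.2.1⟩ := by
      group
    rw [this]

theorem union_bound {S ι : Type} [Finite S] [Fintype ι] (G : S → Prop) (B : ι → S → Prop)
    (h : ∀ s, G s ∨ ∃ i, B i s) :
    Nat.card S ≤ Nat.card {s // G s} + ∑ i, Nat.card {s // B i s} := by
  classical
  haveI := Fintype.ofFinite S
  rw [Nat.card_eq_fintype_card, Nat.card_eq_fintype_card, Fintype.card_subtype]
  have e : ∀ i, Nat.card {s // B i s} = (Finset.univ.filter (fun s => B i s)).card := by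
    intro i
    rw [Nat.card_eq_fintype_card, Fintype.card_subtype]
  rw [Finset.sum_congr rfl (fun i _ => e i)]
  calc Fintype.card S = (Finset.univ : Finset S).card := rfl
    _ ≤ ((Finset.univ.filter (fun s => G s)) ∪
        (Finset.univ.biUnion fun i => Finset.univ.filter (fun s => B i s))).card := by
        apply Finset.card_le_card
        intro s _
        rw [Finset.mem_union]
        rcases h s with h | ⟨i, h⟩
        · left
          simp [h]
        · right
          rw [Finset.mem_biUnion]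
          exact ⟨i, Finset.mem_univ _, by simp [h]⟩
    _ ≤ _ := (Finset.card_union_le _ _).trans
        (Nat.add_le_add_left Finset.card_biUnion_le _)

theorem pAMP : StAM1 → StTRB → StLOC → StAMP := by
  intro hAM1 hTRB hLOC m hm ι _ p hp hinj T c hT j
  classical
  haveI := Fintype.ofFinite ι
  have h7 : 7 ≤ m := by omega
  have h2 : 2 ≤ m := by omega
  choose H hH1 hH2 hH3 hH4 using fun i => hAM1 m h7 (T i)
  choose P hP1 hP2 hP3 using fun i => hTRB m (p i) (H i) h2 (hp i) (hH1 i (p i) (hT i))
  have hloc := hLOC m hm ι p P hp hinj j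
  have hb := union_bound (S := alternatingGroup (Fin m))
    (fun n => ∀ i, ∀ t ∈ T i,
          MulAut.conj (c i * n) * t * (MulAut.conj (c i * n))⁻¹ ∈ T i → t = 1)
    (fun i n => Bad (H i) ((c i * n : alternatingGroup (Fin m)) : Perm (Fin m))) (by
      intro n
      by_cases hn : ∀ i, ∀ t ∈ T i,
          MulAut.conj (c i * n) * t * (MulAut.conj (c i * n))⁻¹ ∈ T i → t = 1
      · exact Or.inl hn
      · right
        push Not at hn
        obtain ⟨i, t, ht, ht2, ht3⟩ := hn
        exact ⟨i, (hH4 i (c i * n)).2 ⟨t, ht, ht3, ht2⟩⟩)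
  have hs : ∑ i, Nat.card {n : alternatingGroup (Fin m) //
      Bad (H i) ((c i * n : alternatingGroup (Fin m)) : Perm (Fin m))} =
      ∑ i, Nat.card {x : Perm (Fin m) // x ∈ alternatingGroup (Fin m) ∧ Bad (H i) x} :=
    Finset.sum_congr rfl (fun i _ => card_shift m (H i) (c i))
  have hs2 : 2 * ∑ i, Nat.card {x : Perm (Fin m) // x ∈ alternatingGroup (Fin m) ∧
      Bad (H i) x} ≤ ∑ i, bad (P i : Subgroup (Perm (Fin m))) := by
    rw [Finset.mul_sum]
    exact Finset.sum_le_sum (fun i _ => hP2 i)
  have hc := two_card_alt m h2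
  have h3 := hP3 j
  rw [hH2 j, hH3 j] at h3
  rw [mul_assoc]
  refine lt_of_le_of_lt h3 ?_
  rw [hs] at hb
  omega

end Pool.Agent.Helper78.SA
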